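import Pool.Agent.V1120.Luzin

/-!
# MP_28859b_gt: a ZFC criterion for metrizability of compact images of `C_p(K)`

If for each `A ⊆ K` of size at most `ℵ₁` the closure of `A` carries fewer than `2^ℵ₁` continuous real
functions, then every compact continuous image of `C_p(K)` is metrizable.
-/

set_option autoImplicit false

open Set Topology Filter Cardinal

namespace Pool.Agent.Results.MP_28859b_gt.FewFunctions

/-- Every compact Hausdorff continuous image of `C_p(K)` is metrizable. -/
def ImagesMetrizable (K : Type) [TopologicalSpace K] : Prop :=
  ∀ (Y : Type) [TopologicalSpace Y] [CompactSpace Y] [T2Space Y]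
    (f : {g : K → ℝ // Continuous g} → Y), Continuous f → Function.Surjective f →
      TopologicalSpace.MetrizableSpace Y

/-- Few continuous functions on the closures of sets of size `≤ ℵ₁` force metrizability of all compact
continuous images of `C_p(K)`. -/
theorem result (K : Type) [TopologicalSpace K] [CompactSpace K] [T2Space K]
    (hK : ∀ A : Set K, #A ≤ ℵ₁ → #C(closure A, ℝ) < 2 ^ ℵ₁) : ImagesMetrizable K := by
  intro Y _ _ _ f hf hs
  exact V1120.Luzin.main K hK Y f hf hs

end Pool.Agent.Results.MP_28859b_gt.FewFunctions
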