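import Pool.Agent.V1120.Luzin

/-!
# MP_28859b_gt: compact continuous images of `C_p(K)` under Luzin's axiom

Under Luzin's axiom `2^ℵ₀ < 2^ℵ₁` every compact continuous image of `C_p(K)` is metrizable for every
Fréchet–Urysohn compact space `K` (of any size).
-/

set_option autoImplicit false

open Set Topology Filter Cardinal

namespace Pool.Agent.Results.MP_28859b_gt.LuzinAxiom

/-- Every compact Hausdorff continuous image of `C_p(K)` is metrizable. -/
def ImagesMetrizable (K : Type) [TopologicalSpace K] : Prop :=
  ∀ (Y : Type) [TopologicalSpace Y] [CompactSpace Y] [T2Space Y]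
    (f : {g : K → ℝ // Continuous g} → Y), Continuous f → Function.Surjective f →
      TopologicalSpace.MetrizableSpace Y

theorem mk_closure_le {K : Type} [TopologicalSpace K] [T2Space K] [FrechetUrysohnSpace K]
    {A : Set K} (hA : #A ≤ 𝔠) : #(closure A) ≤ 𝔠 := by
  choose u hu hut using fun z : closure A => mem_closure_iff_seq_limit.1 z.2
  let g : closure A → (ℕ → A) := fun z n => ⟨u z n, hu z n⟩
  have hg : Function.Injective g := by
    intro z z' h
    have h1 : u z = u z' := by
      funext n
      exact congrArg Subtype.val (congrFun h n)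
    have h2 := hut z
    rw [h1] at h2
    exact Subtype.ext (tendsto_nhds_unique h2 (hut z'))
  refine (mk_le_of_injective hg).trans ?_
  rw [← power_def, mk_nat]
  exact (power_le_power_right hA).trans (by rw [continuum_power_aleph0])

/-- Under `2^ℵ₀ < 2^ℵ₁`, every compact continuous image of `C_p(K)` is metrizable for every
Fréchet–Urysohn compact space `K`. -/
theorem result (hL : (2 : Cardinal.{0}) ^ ℵ₀ < 2 ^ ℵ₁)
    (K : Type) [TopologicalSpace K] [CompactSpace K] [T2Space K] [FrechetUrysohnSpace K] :
    ImagesMetrizable K := by
  intro Y _ _ _ f hf hs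
  refine V1120.Luzin.main K (fun A hA => ?_) Y f hf hs
  have hcomp : CompactSpace (closure A) := isCompact_iff_compactSpace.1 isClosed_closure.isCompact
  have hA' : #A ≤ 𝔠 := hA.trans aleph_one_le_continuum
  have h2 := V1120.Luzin.mk_C_le (closure A) (mk_closure_le hA')
  rw [← two_power_aleph0] at h2
  exact h2.trans_lt hL

end Pool.Agent.Results.MP_28859b_gt.LuzinAxiom
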